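import Pool.Agent.Helper26.UM.Final
import Pool.Agent.Helper48.UM.UU
import Pool.Agent.Helper50.UM.UCARD
import Pool.Agent.Helper51.UM.SB
import Pool.Agent.Helper55.UM.UPPER
import Pool.Agent.Helper67.UM.ULIM
import Pool.Agent.Helper73.UM.ROS

set_option autoImplicit false

namespace Pool.Agent.Results.MP_7e6c00_al.NumberOfMeans

universe u v w

/-- Let `G` act on a set `X` whose cardinality is regular. Suppose the finite subsets of `G`
are covered by at most `#X` classes `C i` such that for all `i`, `j` and `δ > 0` there is `N`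
such that all `E ∈ C i`, `F ∈ C j` have a common `(E ∪ F, δ)`-Folner set of at most `N`
elements. Then there are exactly `2 ^ (2 ^ #X)` different `G`-invariant means on `X`. -/
theorem result {G : Type v} [Group G] {X : Type u} [MulAction G X]
    (hX : (Cardinal.mk X).IsRegular) {I : Type w}
    (hI : Cardinal.lift.{u} (Cardinal.mk I) ≤ Cardinal.lift.{w} (Cardinal.mk X))
    (C : I → Set (Finset G)) (hC : ∀ E : Finset G, ∃ i, E ∈ C i)
    (hU : ∀ (i j : I) (δ : ℝ), 0 < δ → ∃ N : ℕ, ∀ E ∈ C i, ∀ F ∈ C j,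
      ∃ T : Finset G, T.Nonempty ∧ T.card ≤ N ∧
        ∀ g : G, (g ∈ E ∨ g ∈ F) → ({t : G | t ∈ T ∧ g * t ∉ T}.ncard : ℝ) ≤ δ * T.card) :
    Cardinal.mk {μ : Set X → ℝ | (∀ A : Set X, 0 ≤ μ A ∧ μ A ≤ 1) ∧
        μ Set.univ = 1 ∧
        (∀ A B : Set X, Disjoint A B → μ (A ∪ B) = μ A + μ B) ∧
        (∀ (g : G) (A : Set X), μ ((fun x : X => g • x) ⁻¹' A) = μ A)} =
      2 ^ ((2 : Cardinal.{u}) ^ Cardinal.mk X) :=
  Pool.Agent.Helper26.UM.final Pool.Agent.Helper73.UM.st_ROS Pool.Agent.Helper50.UM.st_UCARD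
    Pool.Agent.Helper67.UM.st_ULIM Pool.Agent.Helper55.UM.st_UPPER Pool.Agent.Helper48.UM.st_UU
    Pool.Agent.Helper51.UM.st_SB hX hI C hC hU

end Pool.Agent.Results.MP_7e6c00_al.NumberOfMeans
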